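import Pool.Agent.helper53.DC.SpecA

/-! Modules dc:A18, dc:A17. -/

set_option autoImplicit false

namespace Pool.Agent.helper7.DC

open Pool.Agent.helper53.DC

variable {B W : Type} [Group W] {M : CoxeterMatrix B} (cs : CoxeterSystem M W)

theorem A18_hs_not {X Wl : Type} (S : WS X Wl) (w : Wl) (b : Bool) (x : X) :
    x ∈ S.hs w (!b) ↔ x ∉ S.hs w b := by
  unfold WS.hs
  simp only [Set.mem_setOf_eq]
  by_cases h : x ∈ S.H w <;> cases b <;> simp [h]

theorem A18_refl (r : Wall cs) (x : W) (b : Bool) :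
    r.1 * x ∈ (cw cs).hs r b ↔ x ∈ (cw cs).hs r (!b) := by
  have hr : r.1 * r.1 = 1 := r.2.mul_self
  have h1 : r.1 * x ∈ (cw cs).H r ↔ cs.length x < cs.length (r.1 * x) := by
    rw [mem_cw, ← mul_assoc, hr, one_mul]
  have h2 : x ∈ (cw cs).H r ↔ cs.length (r.1 * x) < cs.length x := Iff.rfl
  have h3 : cs.length (r.1 * x) ≠ cs.length x := r.2.length_mul_right_ne x
  unfold WS.hs
  simp only [Set.mem_setOf_eq]
  rw [h1, h2]
  cases b
  · simp only [Bool.false_eq_true, iff_false, Bool.not_false, iff_true]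
    omega
  · simp only [iff_true, Bool.not_true, Bool.false_eq_true, iff_false]
    omega

theorem A18 (h6 : A6_stmt) : A18_stmt := by
  intro B W _ M cs r r' hD
  obtain ⟨hne, hnc⟩ := hD
  have hgood := h6 cs
  unfold WS.Cross at hnc
  push Not at hnc
  obtain ⟨b0, b', hb⟩ := hnc
  have hsub : (cw cs).hs r' b' ⊆ (cw cs).hs r (!b0) := by
    intro x hx
    rw [A18_hs_not]
    intro hx'
    have : x ∈ (cw cs).hs r b0 ∩ (cw cs).hs r' b' := ⟨hx', hx⟩
    rw [hb] at this
    exact this
  have himg : ∀ x ∈ (cw cs).hs r (!b0), r'.1 * (r.1 * x) ∈ (cw cs).hs r' b' := by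
    intro x hx
    have h1 : r.1 * x ∈ (cw cs).hs r (!!b0) := by
      rw [A18_refl, Bool.not_not]; exact hx
    rw [A18_refl, A18_hs_not]
    intro h2
    have h3 := hsub h2
    rw [A18_hs_not] at h1
    exact h1 h3
  refine ⟨!b0, ?_, ?_⟩
  · rintro _ ⟨x, hx, rfl⟩
    exact hsub (himg x hx)
  · intro hcon
    have h1 : (cw cs).hs r (!b0) = (cw cs).hs r' b' := by
      apply Set.Subset.antisymm
      · intro x hx
        obtain ⟨y, hy, rfl⟩ := hcon hx
        exact himg y hy
      · exact hsub
    -- equality of half-spaces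
    have h2 : (cw cs).H r = (cw cs).H r' ∨ (cw cs).H r = ((cw cs).H r')ᶜ := by
      have h3 : ∀ x, (x ∈ (cw cs).H r ↔ (!b0) = true) ↔ (x ∈ (cw cs).H r' ↔ b' = true) := by
        intro x
        have := Set.ext_iff.mp h1 x
        exact this
      cases b0 <;> cases b'
      · right
        ext x
        have := h3 x
        simp at this
        rw [Set.mem_compl_iff]
        exact this
      · left
        ext x
        have := h3 x
        simp at this
        exact this
      · left
        ext x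
        have := h3 x
        simp at this
        tauto
      · right
        ext x
        have := h3 x
        simp at this
        rw [Set.mem_compl_iff]
        tauto
    rcases h2 with h2 | h2
    · exact hne (hgood.inj _ _ h2)
    · exact hgood.injc _ _ h2

theorem A17 (h18 : A18_stmt) : A17_stmt := by
  intro B W _ M cs r r' hD n hn h
  obtain ⟨b, hsub, hstr⟩ := h18 cs r r' hD
  apply hstr
  have hr : r.1⁻¹ = r.1 := r.2.inv
  have hr' : r'.1⁻¹ = r'.1 := r'.2.inv
  have h1 : (r'.1 * r.1) ^ n = 1 := by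
    have : r'.1 * r.1 = (r.1 * r'.1)⁻¹ := by rw [mul_inv_rev, hr, hr']
    rw [this, inv_pow, h, inv_one]
  have h2 : ∀ k x, x ∈ (cw cs).hs r b → (r'.1 * r.1) ^ k * x ∈ (cw cs).hs r b := by
    intro k
    induction k with
    | zero => intro x hx; simpa using hx
    | succ k ih =>
      intro x hx
      rw [pow_succ, mul_assoc]
      apply ih
      apply hsub
      exact ⟨x, hx, by simp [mul_assoc]⟩
  intro x hx
  obtain ⟨k, rfl⟩ : ∃ k, n = k + 1 := ⟨n - 1, by omega⟩
  refine ⟨(r'.1 * r.1) ^ k * x, h2 k x hx, ?_⟩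
  show r'.1 * (r.1 * ((r'.1 * r.1) ^ k * x)) = x
  have : r'.1 * (r.1 * ((r'.1 * r.1) ^ k * x)) = (r'.1 * r.1) ^ (k + 1) * x := by
    rw [pow_succ']; group
  rw [this, h1, one_mul]

end Pool.Agent.helper7.DC
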