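import Pool.Agent.helper53.DC.SpecI

/-! Modules dc:I2, dc:I3. -/

set_option autoImplicit false

namespace Pool.Agent.helper7.DC

open Pool.Agent.helper53.DC

theorem I3 : I3_stmt := by
  intro Z _ ν y h1 h2 hy h3
  obtain ⟨hy1, hy2⟩ := hy
  rw [lf_x0_right] at h2
  set S := ∑ z, ν.2 z * y.2 z with hS
  have e1 : lf ν ν = -(ν.1 * ν.1) + ∑ z, ν.2 z * ν.2 z := rfl
  have e2 : lf y y = -(y.1 * y.1) + ∑ z, y.2 z * y.2 z := rfl
  have e3 : lf ν y = -(ν.1 * y.1) + S := rfl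
  have cs : S ^ 2 ≤ (∑ z, ν.2 z ^ 2) * (∑ z, y.2 z ^ 2) := Finset.sum_mul_sq_le_sq_mul_sq _ _ _
  have e4 : ∑ z, ν.2 z ^ 2 = 1 + ν.1 ^ 2 := by
    have : ∑ z, ν.2 z ^ 2 = ∑ z, ν.2 z * ν.2 z := Finset.sum_congr rfl fun z _ => by ring
    rw [this]; rw [e1] at h1; linarith [h1]
  have e5 : ∑ z, y.2 z ^ 2 = y.1 ^ 2 - 1 := by
    have : ∑ z, y.2 z ^ 2 = ∑ z, y.2 z * y.2 z := Finset.sum_congr rfl fun z _ => by ring
    rw [this]; rw [e2] at hy1; linarith [hy1]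
  rw [e4, e5] at cs
  set T := lf ν y with hT
  have hS' : S = T + ν.1 * y.1 := by linarith
  rw [hS'] at cs
  -- `T ≤ 0`, `ν.1 ≤ 0`, `y.1 > 0`
  have h4 : ν.1 ≤ 0 := by linarith
  have h5 : 0 ≤ T * (ν.1 * y.1) := mul_nonneg_of_nonpos_of_nonpos h3 (mul_nonpos_of_nonpos_of_nonneg h4 hy2.le)
  nlinarith [sq_nonneg ν.1]

theorem I2 (hI : I1_stmt) : I2_stmt := by
  intro Z _ ν ν' y z h1 h2 hc hy hz h3 h4 h5
  obtain ⟨i1, i2, i3, i4⟩ := hI (Z := Z)
  set c := lf ν ν' with hcdef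
  set T := -lf ν y with hT
  have hcc : lf ν' ν = c := by rw [lf_comm]
  let t : LL Z := ν' - c • ν
  have t1 : lf t ν = 0 := by
    show lf (ν' - c • ν) ν = 0
    rw [lf_sub_left, lf_smul_left, hcc, h1]; ring
  have t2 : lf t t = 1 - c ^ 2 := by
    show lf t (ν' - c • ν) = 1 - c ^ 2
    rw [lf_sub_right, lf_smul_right, t1]
    show lf (ν' - c • ν) ν' - c * 0 = 1 - c ^ 2
    rw [lf_sub_left, lf_smul_left, h2, ← hcdef]; ring
  have t3 : 0 < lf t z := by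
    show 0 < lf (ν' - c • ν) z
    rw [lf_sub_left, lf_smul_left]
    nlinarith
  have t4 : 0 < lf t y := i2 t (by rw [t2]; nlinarith) y hy z hz t3
  have t5 : lf t y = lf ν' y + c * T := by
    show lf (ν' - c • ν) y = _
    rw [lf_sub_left, lf_smul_left, hT]; ring
  let y' : LL Z := y + T • ν
  have y1 : lf y' y' = -1 - T ^ 2 := by
    show lf (y + T • ν) (y + T • ν) = _
    rw [lf_add_left, lf_add_right, lf_add_right, lf_smul_left, lf_smul_left, lf_smul_right, lf_smul_right, h1,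
      hy.1, lf_comm y ν]
    have : lf ν y = -T := by rw [hT]; ring
    rw [this]; ring
  have y2 : lf t y' = lf t y := by
    show lf t (y + T • ν) = _
    rw [lf_add_right, lf_smul_right, t1]; ring
  have y3 := i3 t y' (by rw [t2]; nlinarith) (by rw [y1]; nlinarith [sq_nonneg T])
  rw [t2, y1, y2] at y3
  -- `(c^2 - 1)(1 + T^2) ≤ (lf t y)^2`
  have y4 : (c ^ 2 - 1) * (1 + T ^ 2) ≤ lf t y ^ 2 := by nlinarith
  set τ := lf t y with hτ
  have h6 : -lf ν' y = c * T - τ := by rw [t5]; ring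
  have hT0 : 0 < T := by
    by_contra h
    push Not at h
    have : c * T ≤ 0 := mul_nonpos_of_nonneg_of_nonpos (by linarith) h
    linarith
  rw [h6]
  by_contra h
  push Not at h
  -- `T < 2 (c T - τ)`, so `τ < (c - 1/2) T`
  have h7 : τ < (c - 1 / 2) * T := by
    have : 2 * (c * T - τ) > T := by linarith
    linarith
  have h8 : τ ^ 2 < ((c - 1 / 2) * T) ^ 2 := by
    apply sq_lt_sq'
    · have : 0 ≤ (c - 1 / 2) * T := mul_nonneg (by linarith) hT0.le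
      linarith
    · exact h7
  have h9 : (c ^ 2 - 1) * T ^ 2 ≤ (c ^ 2 - 1) * (1 + T ^ 2) := by nlinarith
  have h10 : (c ^ 2 - 1) * T ^ 2 < (c - 1 / 2) ^ 2 * T ^ 2 := by
    calc (c ^ 2 - 1) * T ^ 2 ≤ τ ^ 2 := h9.trans y4
      _ < ((c - 1 / 2) * T) ^ 2 := h8
      _ = (c - 1 / 2) ^ 2 * T ^ 2 := by ring
  have h11 : c ^ 2 - 1 < (c - 1 / 2) ^ 2 := lt_of_mul_lt_mul_right h10 (sq_nonneg T)
  nlinarith

end Pool.Agent.helper7.DC
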