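import Pool.Agent.helper58.DC.Spec1

/-!
Module dq:AU: uniqueness of the components and the path of a chain of a power.
-/

set_option autoImplicit false

namespace Pool.Agent.helper7.DC

open Pool.Agent.helper58.DC

theorem AU_map {G T : Type} [Group G] (P : T → Subgroup G) (t : T) :
    (Subgroup.pi Set.univ P : Subgroup (T → G)).map (Pi.evalMonoidHom (fun _ => G) t) = P t := by
  classical
  apply le_antisymm
  · rintro x ⟨f, hf, rfl⟩
    exact hf t (Set.mem_univ t)
  · intro x hx
    refine ⟨Pi.mulSingle t x, ?_, ?_⟩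
    · intro s _
      by_cases hs : s = t
      · subst hs
        rw [Pi.mulSingle_eq_same]
        exact hx
      · rw [Pi.mulSingle_eq_of_ne hs]
        exact (P s).one_mem
    · show (Pi.mulSingle t x : T → G) t = x
      rw [Pi.mulSingle_eq_same]

theorem AU_pi_inj {G T : Type} [Group G] (P Q : T → Subgroup G)
    (h : (Subgroup.pi Set.univ P : Subgroup (T → G)) = Subgroup.pi Set.univ Q) (t : T) :
    P t = Q t := by
  rw [← AU_map P t, ← AU_map Q t, h]

open Classical in
theorem AU_proj (hNT : NT_stmt) {G T : Type} [Group G] [Finite G] [Fintype T] (p : ℕ)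
    (C : T → Finset (Subgroup G)) (hC : ∀ t, IsRadical p (C t)) (W : Finset (T → ℕ))
    (hW : IsPath (fun t => (C t).card - 1) W) (t : T) :
    (asmC C W).image (fun P => P.map (Pi.evalMonoidHom (fun _ => G) t)) = C t := by
  obtain ⟨h1, h2, h3⟩ := hNT G (C t) (hC t).chain
  have hpos : 0 < (C t).card := by
    obtain ⟨P₀, hP₀, _⟩ := (hC t).radical
    exact Finset.card_pos.2 ⟨P₀, hP₀⟩
  ext P
  rw [Finset.mem_image]
  constructor
  · rintro ⟨Q, hQ, rfl⟩
    unfold asmC at hQ
    rw [Finset.mem_image] at hQ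
    obtain ⟨r, hr, rfl⟩ := hQ
    rw [AU_map]
    refine (h2 (r t) ?_).1
    have h5 : r t ≤ (C t).card - 1 := hW.2.2.1 r hr t
    omega
  · intro hP
    obtain ⟨ha, hb⟩ := h1 P hP
    have h6 : rk (C t) P ≤ (C t).card - 1 := by omega
    obtain ⟨r, hr, hrt⟩ := hW.2.2.2 t (rk (C t) P) h6
    refine ⟨Subgroup.pi Set.univ fun t => nth (C t) (r t), ?_, ?_⟩
    · unfold asmC
      exact Finset.mem_image_of_mem _ hr
    · rw [AU_map, hrt, hb]

theorem AU_sub (hNT : NT_stmt) {G T : Type} [Group G] [Finite G] [Fintype T] (p : ℕ)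
    (C : T → Finset (Subgroup G)) (hC : ∀ t, IsRadical p (C t)) (W V : Finset (T → ℕ))
    (hW : IsPath (fun t => (C t).card - 1) W) (hV : IsPath (fun t => (C t).card - 1) V)
    (h : asmC C W = asmC C V) : W ⊆ V := by
  classical
  intro r hr
  have h1 : (Subgroup.pi Set.univ fun t => nth (C t) (r t) : Subgroup (T → G)) ∈ asmC C V := by
    rw [← h]
    unfold asmC
    exact Finset.mem_image_of_mem _ hr
  unfold asmC at h1
  rw [Finset.mem_image] at h1
  obtain ⟨v, hv, hvr⟩ := h1
  have h2 : v = r := by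
    funext t
    have hpos : 0 < (C t).card := by
      obtain ⟨P₀, hP₀, _⟩ := (hC t).radical
      exact Finset.card_pos.2 ⟨P₀, hP₀⟩
    obtain ⟨_, hb, _⟩ := hNT G (C t) (hC t).chain
    have h3 : nth (C t) (v t) = nth (C t) (r t) := AU_pi_inj _ _ hvr t
    have h6 : v t ≤ (C t).card - 1 := hV.2.2.1 v hv t
    have h7 : r t ≤ (C t).card - 1 := hW.2.2.1 r hr t
    have h4 := (hb (v t) (by omega)).2
    have h5 := (hb (r t) (by omega)).2
    rw [← h4, ← h5, h3]
  rw [← h2]
  exact hv

theorem AU (hNT : NT_stmt) : AU_stmt := by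
  classical
  intro G T _ _ _ p _ _ C D hC hD W V hW hV h
  have hCD : C = D := by
    funext t
    rw [← AU_proj hNT p C hC W hW t, ← AU_proj hNT p D hD V hV t, h]
  subst hCD
  exact ⟨rfl, Finset.Subset.antisymm (AU_sub hNT p C hC W V hW hV h)
    (AU_sub hNT p C hC V W hV hW h.symm)⟩

end Pool.Agent.helper7.DC
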