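import Pool.Agent.helper58.DC.Spec1

/-!
Module dq:NT: rank and `nth` in a chain.
-/

set_option autoImplicit false

namespace Pool.Agent.helper7.DC

open Pool.Agent.helper58.DC

theorem NT_lt {G : Type} [Group G] (C : Finset (Subgroup G)) (P Q : Subgroup G) (hP : P ∈ C)
    (h : P < Q) : rk C P < rk C Q := by
  classical
  unfold rk
  apply Finset.card_lt_card
  rw [Finset.ssubset_iff_of_subset]
  · refine ⟨P, ?_, ?_⟩
    · rw [Finset.mem_filter]
      exact ⟨hP, h⟩
    · rw [Finset.mem_filter]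
      rintro ⟨_, h2⟩
      exact lt_irrefl _ h2
  · intro R hR
    rw [Finset.mem_filter] at hR ⊢
    exact ⟨hR.1, hR.2.trans h⟩

theorem NT_le {G : Type} [Group G] (C : Finset (Subgroup G)) (P Q : Subgroup G)
    (h : P ≤ Q) : rk C P ≤ rk C Q := by
  classical
  unfold rk
  apply Finset.card_le_card
  intro R hR
  rw [Finset.mem_filter] at hR ⊢
  exact ⟨hR.1, lt_of_lt_of_le hR.2 h⟩

theorem NT_iff {G : Type} [Group G] (C : Finset (Subgroup G))
    (hC : IsChain (· ≤ ·) (C : Set (Subgroup G))) (P Q : Subgroup G) (hP : P ∈ C) (hQ : Q ∈ C) :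
    rk C P ≤ rk C Q ↔ P ≤ Q := by
  constructor
  · intro h
    by_contra hn
    have h1 : Q ≤ P := by
      rcases eq_or_ne P Q with he | he
      · exact le_of_eq he.symm
      · rcases hC hP hQ he with h2 | h2
        · exact absurd h2 hn
        · exact h2
    have h3 : Q < P := lt_of_le_of_ne h1 (fun he => hn (le_of_eq he.symm))
    have := NT_lt C Q P hQ h3
    omega
  · exact NT_le C P Q

theorem NT_card {G : Type} [Group G] (C : Finset (Subgroup G)) (P : Subgroup G) (hP : P ∈ C) :
    rk C P < C.card := by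
  classical
  unfold rk
  apply Finset.card_lt_card
  rw [Finset.ssubset_iff_of_subset (Finset.filter_subset _ _)]
  refine ⟨P, hP, ?_⟩
  rw [Finset.mem_filter]
  rintro ⟨_, h2⟩
  exact lt_irrefl _ h2

theorem NT_nth {G : Type} [Group G] (C : Finset (Subgroup G))
    (hC : IsChain (· ≤ ·) (C : Set (Subgroup G))) (P : Subgroup G) (hP : P ∈ C) :
    nth C (rk C P) = P := by
  classical
  unfold nth
  apply le_antisymm
  · refine iSup₂_le ?_
    intro R hR
    rw [Finset.mem_filter] at hR
    exact (NT_iff C hC R P hR.1 hP).1 hR.2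
  · refine le_iSup₂_of_le P ?_ le_rfl
    rw [Finset.mem_filter]
    exact ⟨hP, le_rfl⟩

theorem NT : NT_stmt := by
  intro G _ _ C hC
  refine ⟨fun P hP => ⟨NT_card C P hP, NT_nth C hC P hP⟩, ?_,
    fun P hP Q hQ => NT_iff C hC P Q hP hQ⟩
  intro j hj
  have hinj : Set.InjOn (rk C) (C : Set (Subgroup G)) := by
    intro P hP Q hQ h
    exact le_antisymm ((NT_iff C hC P Q hP hQ).1 h.le) ((NT_iff C hC Q P hQ hP).1 h.ge)
  have hmaps : Set.MapsTo (rk C) (C : Set (Subgroup G)) ((Finset.range C.card : Finset ℕ) : Set ℕ) := by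
    intro P hP
    rw [Finset.mem_coe, Finset.mem_range]
    exact NT_card C P hP
  have hsurj := Finset.surjOn_of_injOn_of_card_le (rk C) hmaps hinj (by rw [Finset.card_range])
  obtain ⟨P, hP, hPj⟩ := hsurj (Finset.mem_coe.2 (Finset.mem_range.2 hj))
  rw [← hPj, NT_nth C hC P hP]
  exact ⟨hP, rfl⟩

end Pool.Agent.helper7.DC
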