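import Pool.Agent.helper58.DC.Spec1

/-!
Module dq:PE: equivariance of `asm`.
-/

set_option autoImplicit false

namespace Pool.Agent.helper7.DC

open Pool.Agent.helper58.DC

theorem PE (hAE : AE_stmt) (hSK : SK_stmt) : PE_stmt := by
  intro G E A L T _ _ _ _ _ _ _ X c e x W
  have h1 := hAE G E A L T X c e (fun t => (x t).1) W
  have h2 := (hSK G E A L T X c ⊤).1 e (fun t => (x t).2)
  exact Prod.ext h1 h2

end Pool.Agent.helper7.DC
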