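import Pool.Agent.helper58.DC.Spec2

/-!
Module dq:RS: reduction to `U = ⊤` and to the largest `d`.
-/

set_option autoImplicit false

namespace Pool.Agent.helper7.DC

open Pool.Agent.helper58.DC

theorem RS (hRE : RE_stmt) (hST : ST_stmt) (hFN : FN_stmt) : RS_stmt := by
  intro p M hD
  unfold Dade at hD
  push Not at hD
  obtain ⟨G, E, A, _, _, _, _, _, X, hOp, χ, hχ, hpos, d0, U0, h0⟩ := hD
  have hA : Finite A := Finite.of_surjective X.proj X.proj_surjective
  obtain ⟨U, hU⟩ := (Set.toFinite {V : Subgroup A | ∃ d, altSum X p M χ d V ≠ 0}).exists_maximal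
    ⟨U0, d0, h0⟩
  obtain ⟨d1, hd1⟩ := hU.1
  have hkey : ∀ d : ℤ, altSum (resE X U) p M χ d ⊤ = altSum X p M χ d U := by
    intro d
    rw [hRE G E A X p M χ hχ d U]
    rw [finsum_eq_single (fun V : {V : Subgroup A // U ≤ V} => altSum X p M χ d V.1)
      ⟨U, le_rfl⟩]
    rintro ⟨V, hV⟩ hne
    by_contra hcon
    have h1 : V ∈ {V : Subgroup A | ∃ d, altSum X p M χ d V ≠ 0} := ⟨d, hcon⟩
    have h2 : V ≤ U := hU.2 h1 hV
    exact hne (Subtype.ext (le_antisymm h2 hV))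
  obtain ⟨D, hDm⟩ := (hFN G _ _ (resE X U) p M χ ⊤).exists_maximal
    ⟨d1, by
      show altSum (resE X U) p M χ d1 ⊤ ≠ 0
      rw [hkey]
      exact hd1⟩
  have hD1 : altSum (resE X U) p M χ D ⊤ ≠ 0 := hDm.1
  refine ⟨G, (U.comap X.proj : Subgroup E), U, inferInstance, inferInstance, inferInstance,
    inferInstance, inferInstance, resE X U, χ, D, hOp, hχ, hpos, hST G _ _ (resE X U) p M χ hχ D hD1,
    hD1, ?_⟩
  intro d hd
  by_contra hcon
  have h1 : d ≤ D := hDm.2 hcon hd.le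
  omega

end Pool.Agent.helper7.DC
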