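import Pool.Agent.helper53.DC.SpecI

/-! Module dc:I4: windows. -/

set_option autoImplicit false

namespace Pool.Agent.helper7.DC

open Pool.Agent.helper53.DC

variable {Z : Type} [Fintype Z]

/-- `R_{n i} ... R_{n (i+m-1)}` -/
def I4_T (n : ℕ → LL Z) : ℕ → ℕ → LL Z → LL Z
  | _, 0, v => v
  | i, m + 1, v => rf (n i) (I4_T n (i + 1) m v)

theorem I4_kap (n : ℕ → LL Z) (m : ℕ) : ∀ (i : ℕ) (v : LL Z), kap n (i + m) v = kap n i (I4_T n i m v) := by
  induction m with
  | zero => intro i v; rfl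
  | succ m ih =>
    intro i v
    rw [show i + (m + 1) = (i + 1) + m by omega, ih (i + 1) v]
    rfl

theorem I4_A (n : ℕ → LL Z) (a : ℝ) (ha : 0 < a) (m : ℕ) : ∀ (i : ℕ) (u : LL Z),
    (∀ k, i ≤ k → k < i + m → lf (n k) x0 = a) →
    (∀ p q, i ≤ p → p < q → q < i + m → lf (n p) (n q) ≤ 0) →
    (∀ k, i ≤ k → k < i + m → lf u (n k) ≤ 0) → lf u x0 ≤ lf u (I4_T n i m x0) := by
  induction m with
  | zero => intro i u _ _ _; exact le_refl _
  | succ m ih =>
    intro i u h1 h2 h3
    have k1 := ih (i + 1) u (fun k hk hk' => h1 k (by omega) (by omega))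
      (fun p q hp hpq hq => h2 p q (by omega) hpq (by omega))
      (fun k hk hk' => h3 k (by omega) (by omega))
    have k2 := ih (i + 1) (n i) (fun k hk hk' => h1 k (by omega) (by omega))
      (fun p q hp hpq hq => h2 p q (by omega) hpq (by omega))
      (fun k hk hk' => h2 i k (le_refl _) (by omega) (by omega))
    have k3 := h1 i (le_refl _) (by omega)
    have k4 := h3 i (le_refl _) (by omega)
    show lf u x0 ≤ lf u (rf (n i) (I4_T n (i + 1) m x0))
    unfold rf
    rw [lf_sub_right, lf_smul_right]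
    rw [k3] at k2
    nlinarith [mul_nonneg (show (0 : ℝ) ≤ lf (n i) (I4_T n (i + 1) m x0) by linarith) (neg_nonneg.mpr k4)]

theorem I4_B (n : ℕ → LL Z) (m : ℕ) : ∀ (j : ℕ) (u : LL Z),
    (∀ p q, j ≤ p → p < q → q ≤ j + m → lf (n p) (n q) ≤ 0) →
    (∀ k, j ≤ k → k < j + m → 0 ≤ lf u (n k)) → lf u (n (j + m)) ≤ lf u (I4_T n j m (n (j + m))) := by
  induction m with
  | zero => intro j u _ _; exact le_refl _
  | succ m ih =>
    intro j u h1 h2
    have e : j + 1 + m = j + (m + 1) := by omega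
    have k1 := ih (j + 1) u (fun p q hp hpq hq => h1 p q (by omega) hpq (by omega))
      (fun k hk hk' => h2 k (by omega) (by omega))
    have k2 := ih (j + 1) (-n j) (fun p q hp hpq hq => h1 p q (by omega) hpq (by omega))
      (fun k hk hk' => by
        rw [lf_neg_left]
        have := h1 j k (le_refl _) (by omega) (by omega)
        linarith)
    rw [e] at k1 k2
    rw [lf_neg_left, lf_neg_left] at k2
    have k3 := h1 j (j + (m + 1)) (le_refl _) (by omega) (le_refl _)
    have k4 := h2 j (le_refl _) (by omega)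
    show lf u (n (j + (m + 1))) ≤ lf u (rf (n j) (I4_T n (j + 1) m (n (j + (m + 1)))))
    unfold rf
    rw [lf_sub_right, lf_smul_right]
    nlinarith [mul_nonneg (show (0 : ℝ) ≤ -lf (n j) (I4_T n (j + 1) m (n (j + (m + 1)))) by linarith) k4]

theorem I4 : I4_stmt := by
  intro Z _ n a ha N hN
  refine ⟨?_, ?_⟩
  · intro i j hij hj hpq
    obtain ⟨m, rfl⟩ : ∃ m, j = i + (m + 1) := ⟨j - i - 1, by omega⟩
    rw [I4_kap n (m + 1) i x0, lf_kap (fun k hk => (hN k (by omega)).1)]
    show lf (n i) (rf (n i) (I4_T n (i + 1) m x0)) ≤ -a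
    rw [lf_rf_left (hN i (by omega)).1]
    have k := I4_A n a ha m (i + 1) (n i) (fun k hk hk' => (hN k (by omega)).2)
      (fun p q hp hpq' hq => hpq p q (by omega) hpq' (by omega))
      (fun k hk hk' => hpq i k (le_refl _) (by omega) (by omega))
    rw [(hN i (by omega)).2] at k
    linarith
  · intro i j hji hi hpq
    obtain ⟨m, rfl⟩ : ∃ m, i = j + m := ⟨i - j, by omega⟩
    rw [I4_kap n m j (n (j + m)), lf_kap (fun k hk => (hN k (by omega)).1), lf_comm]
    have k := I4_B n m j x0 (fun p q hp hpq' hq => hpq p q hp hpq' hq)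
      (fun k hk hk' => by rw [lf_comm, (hN k (by omega)).2]; exact ha.le)
    rw [lf_comm x0 (n (j + m)), (hN (j + m) hi).2] at k
    exact k

end Pool.Agent.helper7.DC
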